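import Mathlib
import Pool.Agent.Work.MP_4cd38d_pr.Interface

set_option autoImplicit false

namespace Pool.HD.helper19

open Pool.Agent.Work.MP_4cd38d_lc Pool.Agent.Work.MP_4cd38d_pr

theorem glue3 (q : ℕ) (u v w : List ℕ) (hq : q ≤ v.length) (h1 : HasPeriod q (u ++ v))
    (h2 : HasPeriod q (v ++ w)) : HasPeriod q (u ++ (v ++ w)) := by
  intro i hi
  have hi' : i + q < u.length + (v.length + w.length) := by
    rw [List.length_append, List.length_append] at hi; exact hi
  by_cases hiu : i < u.length
  · have h := h1 i (by rw [List.length_append]; omega)
    have e1 : (u ++ (v ++ w))[i]? = (u ++ v)[i]? := by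
      rw [← List.append_assoc]
      exact List.getElem?_append_left (by rw [List.length_append]; omega)
    have e2 : (u ++ (v ++ w))[i + q]? = (u ++ v)[i + q]? := by
      rw [← List.append_assoc]
      exact List.getElem?_append_left (by rw [List.length_append]; omega)
    rw [e1, e2, h]
  · have h := h2 (i - u.length) (by
      rw [List.length_append]
      omega)
    have e1 : (u ++ (v ++ w))[i]? = (v ++ w)[i - u.length]? :=
      List.getElem?_append_right (by omega)
    have e2 : (u ++ (v ++ w))[i + q]? = (v ++ w)[i + q - u.length]? :=
      List.getElem?_append_right (by omega)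
    have e3 : i + q - u.length = i - u.length + q := by omega
    rw [e1, e2, e3, h]

theorem stmt_GLU : Stmt_GLU := by
  intro q G w
  induction w with
  | nil => intro _ _ i hi; simp at hi
  | cons c w ih =>
    intro h1 h2
    cases w with
    | nil => simpa using (h1 c (by simp)).2
    | cons c' w =>
      have ih' := ih (fun d hd => h1 d (List.mem_cons_of_mem _ hd))
        (fun d d' hd => h2 d d' (hd.trans (List.suffix_cons _ _).isInfix))
      have hp := h2 c c' ⟨[], w, by simp⟩
      have := glue3 q (G c) (G c') (w.flatMap G) (h1 c' (by simp)).1 hp (by simpa using ih')
      simpa using this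

theorem stmt_INB : Stmt_INB := by
  intro B G w z hB hw hz hinf
  obtain ⟨s, t, hst⟩ := hinf
  induction w generalizing s with
  | nil =>
    exfalso
    have := congrArg List.length hst
    simp only [List.length_append, List.flatMap_nil, List.length_nil] at this
    omega
  | cons c w ih =>
    have hc := hw c (by simp)
    rw [List.flatMap_cons, List.append_assoc] at hst
    rcases Nat.eq_zero_or_pos s.length with hs | hs
    · have hs0 : s = [] := List.length_eq_zero_iff.1 hs
      subst hs0
      refine ⟨c, by simp, ?_⟩
      have h1 : G c <+: z ++ t := ⟨w.flatMap G, by simpa using hst.symm⟩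
      exact (List.prefix_of_prefix_length_le h1 (List.prefix_append z t) (by omega)).isInfix
    · by_cases hcs : (G c).length ≤ s.length
      · have h1 : G c <+: s := List.prefix_of_prefix_length_le
          (l₃ := s ++ (z ++ t)) ⟨w.flatMap G, hst.symm⟩ (List.prefix_append _ _) hcs
        obtain ⟨s', rfl⟩ := h1
        rw [List.append_assoc] at hst
        have h2 := List.append_cancel_left hst
        obtain ⟨d, hd, hd'⟩ := ih (fun d hd => hw d (List.mem_cons_of_mem _ hd)) s'
          (by rw [List.append_assoc]; exact h2)
        exact ⟨d, List.mem_cons_of_mem _ hd, hd'⟩
      · rw [not_le] at hcs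
        have h1 : s <+: G c := List.prefix_of_prefix_length_le
          (l₃ := s ++ (z ++ t)) (List.prefix_append _ _) ⟨w.flatMap G, hst.symm⟩ hcs.le
        obtain ⟨r, hr⟩ := h1
        have hrl : r.length + s.length = (G c).length := by
          rw [← hr, List.length_append]; omega
        rw [← hr, List.append_assoc] at hst
        have h2 := List.append_cancel_left hst
        -- z ++ t = r ++ w.flatMap G
        have h3 : r <+: z := List.prefix_of_prefix_length_le
          (l₃ := z ++ t) ⟨w.flatMap G, h2.symm⟩ (List.prefix_append _ _) (by omega)
        obtain ⟨z', hz'⟩ := h3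
        have hz'l : r.length + z'.length = z.length := by rw [← hz', List.length_append]
        rw [← hz', List.append_assoc] at h2
        have h4 := List.append_cancel_left h2
        cases w with
        | nil =>
          exfalso
          have := congrArg List.length h4
          simp only [List.length_append, List.flatMap_nil, List.length_nil] at this
          omega
        | cons c' w =>
          refine ⟨c', by simp, ?_⟩
          have hc' := hw c' (by simp)
          have h5 : G c' <+: z' ++ t := ⟨w.flatMap G, by rw [h4]; simp⟩
          have h6 := List.prefix_of_prefix_length_le h5 (List.prefix_append z' t) (by omega)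
          exact h6.isInfix.trans ⟨r, [], by simp [hz']⟩

end Pool.HD.helper19
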