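import Mathlib
import Pool.Agent.Work.MP_4cd38d_pr.Interface

set_option autoImplicit false

namespace Pool.HD.helper19

open Pool.Agent.Work.MP_4cd38d_lc Pool.Agent.Work.MP_4cd38d_pr

theorem pl_append (u v : List (ℕ ⊕ ℕ)) : pl (u ++ v) = pl u ++ pl v := by
  simp [pl]
theorem pr_append (u v : List (ℕ ⊕ ℕ)) : pr (u ++ v) = pr u ++ pr v := by
  simp [pr]
theorem o1_append (G : ℕ → List ℕ) (u v : List (ℕ ⊕ ℕ)) : o1 G (u ++ v) = o1 G u ++ o1 G v := by
  simp [o1, pl_append]
theorem o2_append (G : ℕ → List ℕ) (u v : List (ℕ ⊕ ℕ)) : o2 G (u ++ v) = o2 G u ++ o2 G v := by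
  simp [o2, pr_append]
theorem o1_inl (G : ℕ → List ℕ) (a : ℕ) : o1 G [Sum.inl a] = G a := by simp [o1, pl]
theorem o1_inr (G : ℕ → List ℕ) (a : ℕ) : o1 G [Sum.inr a] = [] := by simp [o1, pl]
theorem o2_inl (G : ℕ → List ℕ) (a : ℕ) : o2 G [Sum.inl a] = [] := by simp [o2, pr]
theorem o2_inr (G : ℕ → List ℕ) (a : ℕ) : o2 G [Sum.inr a] = G a := by simp [o2, pr]

theorem exists_ext {u v z x y : List ℕ} (h1 : u ++ x = z) (h2 : v ++ y = z)
    (h : u.length ≤ v.length) : ∃ β, v = u ++ β := by
  have : u <+: v := List.prefix_of_prefix_length_le (l₃ := z) ⟨x, h1⟩ ⟨y, h2⟩ h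
  obtain ⟨β, hβ⟩ := this
  exact ⟨β, hβ.symm⟩

theorem stmt_OV2 : Stmt_OV2 := by
  intro s s' G G' _ ω
  induction ω using List.reverseRecOn with
  | nil => intro ρ _ h; simp [o1, o2, pl, pr] at h
  | append_singleton ω' c ih =>
    intro ρ hW hlt
    obtain ⟨h1, h2, hC, hE⟩ := hW
    rw [o1_append, o2_append] at hE
    have hcan := hC ω' c ⟨ρ, rfl⟩
    cases c with
    | inl a =>
      have hle : (o1 G ω').length ≤ (o2 G' ω').length := hcan.1 rfl
      have hE' := hE
      rw [o1_append, o2_append, List.append_assoc, List.append_assoc] at hE'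
      obtain ⟨β, hβ⟩ := exists_ext hE' rfl hle
      obtain ⟨α, hα⟩ := exists_ext hE.symm rfl hlt.le
      refine ⟨ω', a, [], β, α, by simp, ?_, by simp, hle, hβ, hα, ?_, ?_⟩
      · apply h1
        simp [pl]
      · rintro rfl
        rw [hα] at hlt
        simp at hlt
      · rw [o1_append, o2_append, o1_inl, o2_inl, hβ, List.append_nil, List.append_assoc] at hα
        simpa using List.append_cancel_left hα
    | inr b =>
      have hlt' : (o2 G' ω').length < (o1 G ω').length := by
        by_contra hcon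
        have := hcan.2 (not_lt.1 hcon)
        simp at this
      have hW' : ω' ++ (Sum.inr b :: ρ) ∈ WW s s' G G' := by
        have : ω' ++ (Sum.inr b :: ρ) = ω' ++ [Sum.inr b] ++ ρ := by simp
        rw [this]
        exact ⟨h1, h2, hC, by rw [o1_append, o2_append, hE]⟩
      obtain ⟨ω₀, a, ξ, β, α', e1, ha, hξ, hle, hβ, hα', _, hG⟩ := ih _ hW' hlt'
      obtain ⟨α, hα⟩ := exists_ext hE.symm rfl hlt.le
      refine ⟨ω₀, a, ξ ++ [b], β, α, by rw [e1]; simp, ha, ?_, hle, hβ, hα, ?_, ?_⟩
      · intro x hx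
        rcases List.mem_append.1 hx with hx | hx
        · exact hξ x hx
        · rw [List.mem_singleton] at hx
          subst hx
          apply h2
          simp [pr]
      · rintro rfl
        rw [hα] at hlt
        simp at hlt
      · rw [o1_append, o2_append, o1_inr, o2_inr, hα', List.append_nil, List.append_assoc] at hα
        have := List.append_cancel_left hα
        rw [hG, this]
        simp

end Pool.HD.helper19
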