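import Mathlib
import Pool.Agent.Work.MP_4cd38d_pr_helper19.OV2

set_option autoImplicit false

namespace Pool.HD.helper19

open Pool.Agent.Work.MP_4cd38d_lc Pool.Agent.Work.MP_4cd38d_pr

theorem canon_snoc (G G' : ℕ → List ℕ) (ω : List (ℕ ⊕ ℕ)) (c : ℕ ⊕ ℕ) (h : Canon G G' ω)
    (hc : c.isLeft = true ↔ (o1 G ω).length ≤ (o2 G' ω).length) : Canon G G' (ω ++ [c]) := by
  intro τ d hτ
  rw [List.prefix_concat_iff] at hτ
  rcases hτ with hτ | hτ
  · obtain ⟨rfl, h2⟩ := List.append_inj' hτ rfl
    rw [List.cons.injEq] at h2
    rw [h2.1]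
    exact hc
  · exact h τ d hτ

theorem flatMap_eq_nil_of_ne (G : ℕ → List ℕ) (y : List ℕ) (h : ∀ b ∈ y, G b ≠ [])
    (h0 : (y.flatMap G).length = 0) : y = [] := by
  cases y with
  | nil => rfl
  | cons b y =>
    exfalso
    rw [List.flatMap_cons, List.length_append] at h0
    have := List.length_pos_iff.2 (h b (by simp))
    omega

theorem stmt_INT : Stmt_INT := by
  intro s s' G G' hNE x y hx hy hxy
  have key : ∀ (n : ℕ) (ω' : List (ℕ ⊕ ℕ)) (x'' y'' : List ℕ), x''.length + y''.length = n →
      Canon G G' ω' → x = pl ω' ++ x'' → y = pr ω' ++ y'' →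
      ∃ ω, Canon G G' ω ∧ pl ω = x ∧ pr ω = y := by
    intro n
    induction n with
    | zero =>
      intro ω' x'' y'' hn hC h1 h2
      have e1 : x'' = [] := List.length_eq_zero_iff.1 (by omega)
      have e2 : y'' = [] := List.length_eq_zero_iff.1 (by omega)
      subst e1 e2
      exact ⟨ω', hC, by rw [h1, List.append_nil], by rw [h2, List.append_nil]⟩
    | succ n ih =>
      intro ω' x'' y'' hn hC h1 h2
      have hE : o1 G ω' ++ x''.flatMap G = o2 G' ω' ++ y''.flatMap G' := by
        have := hxy
        rw [h1, h2, List.flatMap_append, List.flatMap_append] at this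
        exact this
      by_cases hle : (o1 G ω').length ≤ (o2 G' ω').length
      · cases x'' with
        | nil =>
          have hl := congrArg List.length hE
          simp only [List.flatMap_nil, List.append_nil, List.length_append] at hl
          have : y'' = [] := flatMap_eq_nil_of_ne G' y'' (fun b hb => hNE.2 b
            (hy b (by rw [h2]; exact List.mem_append_right _ hb))) (by omega)
          subst this
          simp at hn
        | cons a x'' =>
          refine ih (ω' ++ [Sum.inl a]) x'' y'' (by simp at hn ⊢; omega) ?_ ?_ ?_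
          · exact canon_snoc _ _ _ _ hC (by simpa using hle)
          · rw [h1, pl_append]; simp [pl]
          · rw [h2, pr_append]; simp [pr]
      · cases y'' with
        | nil =>
          have hl := congrArg List.length hE
          simp only [List.flatMap_nil, List.append_nil, List.length_append] at hl
          omega
        | cons b y'' =>
          refine ih (ω' ++ [Sum.inr b]) x'' y'' (by simp at hn ⊢; omega) ?_ ?_ ?_
          · exact canon_snoc _ _ _ _ hC (by simpa using hle)
          · rw [h1, pl_append]; simp [pl]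
          · rw [h2, pr_append]; simp [pr]
  obtain ⟨ω, hC, e1, e2⟩ := key _ [] x y rfl (by
    intro τ c hτ
    have := List.prefix_nil.1 hτ
    simp at this) (by simp [pl]) (by simp [pr])
  refine ⟨ω, ⟨by rw [e1]; exact hx, by rw [e2]; exact hy, hC, ?_⟩, e1, e2⟩
  unfold o1 o2
  rw [e1, e2, hxy]

end Pool.HD.helper19
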