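import Mathlib
import Pool.Agent.Work.MP_4cd38d_pr.Interface

set_option autoImplicit false

namespace Pool.HD.helper19

open Pool.Agent.Work.MP_4cd38d_lc Pool.Agent.Work.MP_4cd38d_pr

theorem stmt_SPR : Stmt_SPR := by
  intro K p z o o' hpf hp hoo h1 h2
  by_contra hcon
  rw [not_lt] at hcon
  obtain ⟨δ, rfl⟩ : ∃ δ, o' = o + δ := ⟨o' - o, by omega⟩
  have hδ : 0 < δ := by omega
  have hsub : o + δ - o = δ := by omega
  rw [hsub] at hcon
  rcases Nat.eq_zero_or_pos K with rfl | hK
  · exact hpf [0] (by simp) (by simp)
  have hlen : δ ≤ p.length := le_trans (Nat.le_mul_of_pos_left δ hK) hcon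
  have hdrop : p.drop δ <+: p := by
    have e1 : p.drop δ <+: (z.drop o).drop δ := List.IsPrefix.drop h1 δ
    rw [List.drop_drop] at e1
    exact List.prefix_of_prefix_length_le e1 h2 (by simp)
  have key : ∀ j, j * δ ≤ p.length → (List.replicate j (p.take δ)).flatten = p.take (j * δ) := by
    intro j
    induction j with
    | zero => simp
    | succ j ih =>
      intro hj
      have hj' : j * δ + δ ≤ p.length := by rw [← Nat.succ_mul]; exact hj
      have e : (j + 1) * δ = δ + j * δ := by ring
      rw [List.replicate_succ, List.flatten_cons, ih (by omega), e, List.take_add]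
      congr 1
      obtain ⟨r, hr⟩ := hdrop
      conv_lhs => rw [← hr]
      rw [List.take_append_of_le_length]
      rw [List.length_drop]
      omega
  apply hpf (p.take δ)
  · intro h0
    have := congrArg List.length h0
    rw [List.length_take, List.length_nil] at this
    omega
  · rw [key K hcon]
    exact (List.take_prefix _ _).isInfix

theorem stmt_SPC (h : Stmt_SPR) : Stmt_SPC := by
  intro K C A p z O hpf hp hA hO
  have hpos : 0 < p.length := List.length_pos_iff.2 hp
  have hstep : ∀ o ∈ O, ∀ o' ∈ O, o < o' → K * o / p.length < K * o' / p.length := by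
    intro o ho o' ho' hlt
    have h1 := h K p z o o' hpf hp hlt (hO o ho).2 (hO o' ho').2
    have h2 : K * o + p.length ≤ K * o' := by
      have : K * o' = K * o + K * (o' - o) := by
        rw [← Nat.mul_add]
        congr 1
        omega
      omega
    calc K * o / p.length < K * o / p.length + 1 := Nat.lt_succ_self _
      _ = (K * o + p.length) / p.length := by rw [Nat.add_div_right _ hpos]
      _ ≤ K * o' / p.length := Nat.div_le_div_right h2
  have hmaps : ∀ o ∈ O, K * o / p.length ∈ Finset.range (K * C + 1) := by
    intro o ho
    rw [Finset.mem_range, Nat.lt_succ_iff]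
    have h1 := (hO o ho).1
    calc K * o / p.length ≤ K * (C * p.length) / p.length :=
          Nat.div_le_div_right (Nat.mul_le_mul_left _ (by omega))
      _ = K * C := by rw [← Nat.mul_assoc, Nat.mul_div_cancel _ hpos]
  have hinj : ∀ o ∈ O, ∀ o' ∈ O, K * o / p.length = K * o' / p.length → o = o' := by
    intro o ho o' ho' he
    rcases lt_trichotomy o o' with hl | hl | hl
    · exact absurd he (hstep o ho o' ho' hl).ne
    · exact hl
    · exact absurd he (hstep o' ho' o ho hl).ne'
  have := Finset.card_le_card_of_injOn (s := O) (t := Finset.range (K * C + 1))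
    (fun o => K * o / p.length) hmaps (fun o ho o' ho' he => hinj o ho o' ho' he)
  simpa using this

end Pool.HD.helper19
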