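import Mathlib
import Pool.Agent.Work.MP_4cd38d_pr_helper19.OV2

set_option autoImplicit false

namespace Pool.HD.helper19

open Pool.Agent.Work.MP_4cd38d_lc Pool.Agent.Work.MP_4cd38d_pr

theorem res_aux (s s' : ℕ) (G G' : ℕ → List ℕ) (ω ω' : List (ℕ ⊕ ℕ))
    (hω' : ∃ ρ, ω' ++ ρ ∈ WW s s' G G')
    (h : (∃ β, o2 G' ω = o1 G ω ++ β ∧ o2 G' ω' = o1 G ω' ++ β) ∨
     (∃ α, α ≠ [] ∧ o1 G ω = o2 G' ω ++ α ∧ o1 G ω' = o2 G' ω' ++ α)) (ρ : List (ℕ ⊕ ℕ))
    (hρ : ω ++ ρ ∈ WW s s' G G') : ω' ++ ρ ∈ WW s s' G G' := by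
  obtain ⟨ρ₀, k1, k2, kC, _⟩ := hω'
  obtain ⟨h1, h2, hC, hE⟩ := hρ
  refine ⟨?_, ?_, ?_, ?_⟩
  · intro a ha
    rw [pl_append] at ha
    rcases List.mem_append.1 ha with ha | ha
    · exact k1 a (by rw [pl_append]; exact List.mem_append_left _ ha)
    · exact h1 a (by rw [pl_append]; exact List.mem_append_right _ ha)
  · intro a ha
    rw [pr_append] at ha
    rcases List.mem_append.1 ha with ha | ha
    · exact k2 a (by rw [pr_append]; exact List.mem_append_left _ ha)
    · exact h2 a (by rw [pr_append]; exact List.mem_append_right _ ha)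
  · intro τ c hτ
    by_cases hlen : (τ ++ [c]).length ≤ ω'.length
    · have : τ ++ [c] <+: ω' := List.prefix_of_prefix_length_le hτ (List.prefix_append _ _) hlen
      exact kC τ c (this.trans (List.prefix_append _ _))
    · have hlen' : ω'.length ≤ τ.length := by simp at hlen; omega
      have hpre : ω' <+: τ := List.prefix_of_prefix_length_le (List.prefix_append _ _)
        ((List.prefix_append τ [c]).trans hτ) hlen'
      obtain ⟨ρ', rfl⟩ := hpre
      rw [List.append_assoc, List.prefix_append_right_inj] at hτ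
      have := hC (ω ++ ρ') c (by rw [List.append_assoc, List.prefix_append_right_inj]; exact hτ)
      rw [this]
      simp only [o1_append, o2_append, List.length_append]
      rcases h with ⟨β, e1, e2⟩ | ⟨α, _, e1, e2⟩
      · have e1' := congrArg List.length e1
        have e2' := congrArg List.length e2
        simp only [List.length_append] at e1' e2'
        omega
      · have e1' := congrArg List.length e1
        have e2' := congrArg List.length e2
        simp only [List.length_append] at e1' e2'
        omega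
  · rw [o1_append, o2_append] at hE ⊢
    rcases h with ⟨β, e1, e2⟩ | ⟨α, _, e1, e2⟩
    · rw [e1, List.append_assoc] at hE
      rw [e2, List.append_assoc, List.append_cancel_left hE]
    · rw [e1, List.append_assoc] at hE
      rw [e2, List.append_assoc, List.append_cancel_left hE]

theorem stmt_RES : Stmt_RES := by
  intro s s' G G' ω ω' hω hω' h ρ
  constructor
  · exact res_aux s s' G G' ω ω' hω' h ρ
  · refine res_aux s s' G G' ω' ω hω ?_ ρ
    rcases h with ⟨β, e1, e2⟩ | ⟨α, h0, e1, e2⟩
    · exact Or.inl ⟨β, e2, e1⟩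
    · exact Or.inr ⟨α, h0, e2, e1⟩

end Pool.HD.helper19
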